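import Pool.Agent.H586.AF.E
import Pool.Agent.H632.AF.LM
import Pool.Agent.H808.AF.AI
import Pool.Agent.H307.AF.T

/-!
# Project AH (helper586), task AH-R1: the neutral part, algebra (helper263)
-/

set_option autoImplicit false
set_option linter.unusedVariables false

open MeasureTheory Matrix Finset Filter Topology

namespace Pool.Agent.H263.AH

open Pool.Agent.H586.AF Pool.Agent.H586.AF.EE
open Pool.Agent.H307.AF (k4_mul k4_trace k4_transpose k4_one F2)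
open Pool.Agent.H632.AF (cov_zero phs_zero kap_zero m12_zero k4_apply cx_apply one_cast)
open Pool.Agent.H808.AF (sum_Ico sum_Icc ex1_none ex2_none)

noncomputable section

/-- plaquettes of the plane 12 -/
abbrev Pq (L : ℕ) := Fin L × Fin L × Fin (L - 1) × Fin L

def V1 (L : ℕ) : Matrix (I1 L) (I0 L) ℝ := k4 (dm L (L - 1)) 1 1 1
def V2 (L : ℕ) : Matrix (I2 L) (I0 L) ℝ := k4 1 (dm L (L - 1)) 1 1
def V3 (L : ℕ) : Matrix (I3 L) (I0 L) ℝ := k4 1 1 (dm L (L - 1)) 1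
/-- the gradient -/
def Vr (L : ℕ) : Matrix (IH L) (I0 L) ℝ := fromRows (V1 L) (fromRows (V2 L) (V3 L))
def K1 (L : ℕ) : Matrix (I1 L) (I1 L) ℝ := ks (lNN L) (lDD L) (lDD L) (lDN L)
def K2 (L : ℕ) : Matrix (I2 L) (I2 L) ℝ := ks (lDD L) (lNN L) (lDD L) (lDN L)
def K3 (L : ℕ) : Matrix (I3 L) (I3 L) ℝ := ks (lDD L) (lDD L) (lNN L) (lDN L)
def K0 (L : ℕ) : Matrix (I0 L) (I0 L) ℝ := ks (lDD L) (lDD L) (lDD L) (lDN L)
/-- the gauge fixed Hessian -/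
def Hr (L : ℕ) : Matrix (IH L) (IH L) ℝ := fromBlocks (K1 L) 0 0 (fromBlocks (K2 L) 0 0 (K3 L))
def B1 (L : ℕ) : Matrix (Pq L) (I1 L) ℝ := -(k4 1 (dm L (L - 1)) 1 1)
def B2 (L : ℕ) : Matrix (Pq L) (I2 L) ℝ := k4 (dm L (L - 1)) 1 1 1
/-- the curl -/
def Br (L : ℕ) : Matrix (Pq L) (IH L) ℝ := fromCols (B1 L) (fromCols (B2 L) 0)

theorem lNN_dm (L : ℕ) : lNN L * dm L (L - 1) = dm L (L - 1) * lDD L := by
  unfold lNN lDD
  rw [Matrix.mul_assoc]

theorem HV1 (L : ℕ) : K1 L * V1 L = V1 L * K0 L := by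
  unfold K1 V1 K0 ks
  simp only [Matrix.add_mul, Matrix.mul_add, k4_mul, Matrix.one_mul, Matrix.mul_one, lNN_dm]

theorem HV2 (L : ℕ) : K2 L * V2 L = V2 L * K0 L := by
  unfold K2 V2 K0 ks
  simp only [Matrix.add_mul, Matrix.mul_add, k4_mul, Matrix.one_mul, Matrix.mul_one, lNN_dm]

theorem HV3 (L : ℕ) : K3 L * V3 L = V3 L * K0 L := by
  unfold K3 V3 K0 ks
  simp only [Matrix.add_mul, Matrix.mul_add, k4_mul, Matrix.one_mul, Matrix.mul_one, lNN_dm]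

theorem HV (L : ℕ) : Hr L * Vr L = Vr L * K0 L := by
  unfold Hr Vr
  rw [fromBlocks_mul_fromRows, fromBlocks_mul_fromRows, fromRows_mul, fromRows_mul, HV1, HV2, HV3]
  simp

theorem BV (L : ℕ) : Br L * Vr L = 0 := by
  unfold Br Vr
  rw [fromCols_mul_fromRows, fromCols_mul_fromRows]
  unfold B1 B2 V1 V2
  rw [Matrix.neg_mul, k4_mul, k4_mul]
  simp

/-- one entry of a component 1 -/
theorem ex1s {L : ℕ} (k : I1 L) (x y z h : ℕ) :
    ex1 L (fun i => (Pi.single (Sum.inl k) 1 : IH L → ℝ) (Sum.inl i)) 0 x y z h =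
      if x = k.1 ∧ y = k.2.1 + 1 ∧ z = k.2.2.1 + 1 ∧ h = k.2.2.2 + 1 then (1 : ℝ) else 0 := by
  unfold ex1
  split_ifs with h1 h2 h2
  · beta_reduce
    rw [Pi.single_apply, if_pos]
    congr 1
    refine Prod.ext (Fin.ext ?_) (Prod.ext (Fin.ext ?_) (Prod.ext (Fin.ext ?_) (Fin.ext ?_)))
    · exact h2.1
    · show y - 1 = _
      omega
    · show z - 1 = _
      omega
    · show h - 1 = _
      omega
  · beta_reduce
    rw [Pi.single_apply, if_neg]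
    intro h3
    have h4 := Sum.inl_injective h3
    apply h2
    have g1 : x = k.1 := congrArg (fun k : I1 L => (k.1 : ℕ)) h4
    have g2 : y - 1 = k.2.1 := congrArg (fun k : I1 L => (k.2.1 : ℕ)) h4
    have g3 : z - 1 = k.2.2.1 := congrArg (fun k : I1 L => (k.2.2.1 : ℕ)) h4
    have g4 : h - 1 = k.2.2.2 := congrArg (fun k : I1 L => (k.2.2.2 : ℕ)) h4
    refine ⟨g1, ?_, ?_, ?_⟩ <;> omega
  · exfalso
    apply h1
    have g1 := k.1.2
    have g2 := k.2.1.2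
    have g3 := k.2.2.1.2
    have g4 := k.2.2.2.2
    refine ⟨⟨?_, ?_, ?_, ?_⟩, ?_, ?_, ?_⟩ <;> omega
  · rfl

/-- one entry of a component 2 -/
theorem ex2s {L : ℕ} (k : I2 L) (x y z h : ℕ) :
    ex2 L (fun i => (Pi.single (Sum.inr (Sum.inl k)) 1 : IH L → ℝ) (Sum.inr (Sum.inl i))) 0 x y z h =
      if x = k.1 + 1 ∧ y = k.2.1 ∧ z = k.2.2.1 + 1 ∧ h = k.2.2.2 + 1 then (1 : ℝ) else 0 := by
  unfold ex2
  split_ifs with h1 h2 h2
  · beta_reduce
    rw [Pi.single_apply, if_pos]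
    congr 2
    refine Prod.ext (Fin.ext ?_) (Prod.ext (Fin.ext ?_) (Prod.ext (Fin.ext ?_) (Fin.ext ?_)))
    · show x - 1 = _
      omega
    · exact h2.2.1
    · show z - 1 = _
      omega
    · show h - 1 = _
      omega
  · beta_reduce
    rw [Pi.single_apply, if_neg]
    intro h3
    have h4 := Sum.inl_injective (Sum.inr_injective h3)
    apply h2
    have g1 : x - 1 = k.1 := congrArg (fun k : I2 L => (k.1 : ℕ)) h4
    have g2 : y = k.2.1 := congrArg (fun k : I2 L => (k.2.1 : ℕ)) h4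
    have g3 : z - 1 = k.2.2.1 := congrArg (fun k : I2 L => (k.2.2.1 : ℕ)) h4
    have g4 : h - 1 = k.2.2.2 := congrArg (fun k : I2 L => (k.2.2.2 : ℕ)) h4
    refine ⟨?_, g2, ?_, ?_⟩ <;> omega
  · exfalso
    apply h1
    have g1 := k.1.2
    have g2 := k.2.1.2
    have g3 := k.2.2.1.2
    have g4 := k.2.2.2.2
    refine ⟨⟨?_, ?_, ?_, ?_⟩, ?_, ?_, ?_⟩ <;> omega
  · rfl

theorem one_ap {n : ℕ} (i j : Fin n) : (1 : Matrix (Fin n) (Fin n) ℝ) i j =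
    if (i : ℕ) = j then 1 else 0 := by
  rw [Matrix.one_apply]
  simp only [Fin.ext_iff]

theorem c12_eq {L : ℕ} (p : Pq L) (j : IH L) :
    c12 (Pi.single j 1 : IH L → ℝ) p.1 p.2.1 (p.2.2.1 + 1) (p.2.2.2 + 1) = Br L p j := by
  rcases j with k | k | k
  · unfold c12
    rw [ex2_none (Sum.inl k) (fun k => by simp), ex2_none (Sum.inl k) (fun k => by simp), ex1s, ex1s]
    show _ = -(k4 1 (dm L (L - 1)) 1 1 p k : ℝ)
    rw [k4_apply, one_ap, one_ap, one_ap]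
    unfold dm
    by_cases h1 : (p.1 : ℕ) = k.1
    · by_cases h3 : (p.2.2.1 : ℕ) = k.2.2.1
      · by_cases h4 : (p.2.2.2 : ℕ) = k.2.2.2
        · simp only [h1, h3, h4, true_and, and_true, if_true, one_mul, mul_one, Nat.add_right_cancel_iff]
          have e1 : ((p.2.1 : ℕ) = k.2.1 + 1) = ((k.2.1 : ℕ) + 1 = p.2.1) := propext ⟨Eq.symm, Eq.symm⟩
          have e2 : ((p.2.1 : ℕ) = k.2.1) = ((k.2.1 : ℕ) = p.2.1) := propext ⟨Eq.symm, Eq.symm⟩
          simp only [e1, e2]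
          ring
        · simp [h4]
      · simp [h3]
    · simp [h1]
  · unfold c12
    rw [ex1_none (Sum.inr (Sum.inl k)) (fun k => by simp),
      ex1_none (Sum.inr (Sum.inl k)) (fun k => by simp), ex2s, ex2s]
    show _ = (k4 (dm L (L - 1)) 1 1 1 p k : ℝ)
    rw [k4_apply, one_ap, one_ap, one_ap]
    unfold dm
    by_cases h1 : (p.2.1 : ℕ) = k.2.1
    · by_cases h3 : (p.2.2.1 : ℕ) = k.2.2.1
      · by_cases h4 : (p.2.2.2 : ℕ) = k.2.2.2
        · simp only [h1, h3, h4, true_and, and_true, if_true, one_mul, mul_one, Nat.add_right_cancel_iff]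
          have e1 : ((p.1 : ℕ) = k.1 + 1) = ((k.1 : ℕ) + 1 = p.1) := propext ⟨Eq.symm, Eq.symm⟩
          have e2 : ((p.1 : ℕ) = k.1) = ((k.1 : ℕ) = p.1) := propext ⟨Eq.symm, Eq.symm⟩
          simp only [e1, e2]
          ring
        · simp [h4]
      · simp [h3]
    · simp [h1]
  · unfold c12
    rw [ex1_none _ (fun k => by simp), ex1_none _ (fun k => by simp),
      ex2_none _ (fun k => by simp), ex2_none _ (fun k => by simp)]
    show _ = (0 : Matrix (Pq L) (I3 L) ℝ) p k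
    simp

theorem mR_eq (L : ℕ) : mR L = (Br L)ᵀ * Br L := by
  ext i j
  unfold mR
  rw [Matrix.of_apply, Matrix.mul_apply]
  unfold s12
  rw [Fintype.sum_prod_type, Finset.sum_range]
  refine Finset.sum_congr rfl fun a _ => ?_
  rw [Fintype.sum_prod_type, Finset.sum_range]
  refine Finset.sum_congr rfl fun b _ => ?_
  rw [Fintype.sum_prod_type, sum_Ico]
  refine Finset.sum_congr rfl fun c _ => ?_
  rw [sum_Icc]
  refine Finset.sum_congr rfl fun d _ => ?_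
  rw [Matrix.transpose_apply, ← c12_eq (a, b, c, d) i, ← c12_eq (a, b, c, d) j]

/-! ### the Hessian -/

theorem cx_mul {m n p : Type} [Fintype n] (A : Matrix m n ℝ) (B : Matrix n p ℝ) :
    cx (A * B) = cx A * cx B := by
  ext i j
  simp only [Matrix.map_apply, Matrix.mul_apply, Complex.ofReal_sum, Complex.ofReal_mul]

theorem cx_ct {m n : Type} (A : Matrix m n ℝ) : (cx A)ᴴ = cx Aᵀ := by
  ext i j
  simp only [Matrix.conjTranspose_apply, Matrix.map_apply, Matrix.transpose_apply]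
  exact Complex.conj_ofReal _

theorem gV_zero (L : ℕ) : gV L 0 = cx (Vr L) := by
  ext i j
  rcases i with i | i | i
  · show k4 (cx (dm L (L - 1))) 1 1 1 i j = ((k4 (dm L (L - 1)) 1 1 1 i j : ℝ) : ℂ)
    rw [k4_apply, k4_apply]
    push_cast
    rw [cx_apply, one_cast, one_cast, one_cast]
  · show g2 L 0 i j = ((k4 1 (dm L (L - 1)) 1 1 i j : ℝ) : ℂ)
    unfold g2
    rw [phs_zero, phs_zero, Matrix.sub_apply, k4_apply, k4_apply, k4_apply]
    push_cast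
    rw [one_cast, one_cast, one_cast]
    unfold e0 e1 dm
    split_ifs <;> push_cast <;> ring
  · show k4 1 1 (cx (dm L (L - 1))) 1 i j = ((k4 1 1 (dm L (L - 1)) 1 i j : ℝ) : ℂ)
    rw [k4_apply, k4_apply]
    push_cast
    rw [cx_apply, one_cast, one_cast, one_cast]

theorem mH_zero (hPD : S_PD) (L : ℕ) (hL : 2 ≤ L) : mH L 0 = cx (Hr L) := by
  obtain ⟨pDD, pNN, pDN, pND, -, hDD, hNN, hks⟩ := hPD L hL
  have z11 : m11 L 0 = cx (K1 L) := by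
    unfold m11
    rw [kap_zero, zero_smul, sub_zero]
    exact cov_zero _ _ _ _ _ hDD
  have z22 : m22 L 0 = cx (K2 L) := by
    unfold m22
    rw [kap_zero, zero_smul, sub_zero]
    exact cov_zero _ _ _ _ _ hNN
  have z33 : m33 L 0 = cx (K3 L) := cov_zero _ _ _ _ _ hDD
  unfold mH
  rw [m12_zero, z11, z22, z33]
  ext i j
  rcases i with i | i | i <;> rcases j with j | j | j
  · rfl
  · show (0 : ℂ) = ((0 : ℝ) : ℂ)
    simp
  · show (0 : ℂ) = ((0 : ℝ) : ℂ)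
    simp
  · show (star (0 : ℂ)) = ((0 : ℝ) : ℂ)
    simp
  · rfl
  · show (0 : ℂ) = ((0 : ℝ) : ℂ)
    simp
  · show (0 : ℂ) = ((0 : ℝ) : ℂ)
    simp
  · show (0 : ℂ) = ((0 : ℝ) : ℂ)
    simp
  · rfl

theorem mA_eq (hPD : S_PD) (L : ℕ) (hL : 2 ≤ L) : mA L = Hr L - Vr L * (Vr L)ᵀ := by
  ext i j
  unfold mA
  rw [Matrix.of_apply]
  unfold hC
  rw [mH_zero hPD L hL, gV_zero, cx_ct, ← cx_mul, Matrix.sub_apply, Matrix.sub_apply, cx_apply,
    cx_apply, ← Complex.ofReal_sub, Complex.ofReal_re]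

/-! ### linear algebra -/

theorem tr_red {m n p : Type} [Fintype m] [DecidableEq m] [Fintype n] [DecidableEq n] [Fintype p]
    (A H : Matrix m m ℝ) (V : Matrix m n ℝ) (K : Matrix n n ℝ) (B : Matrix p m ℝ)
    (hA : A = H - V * Vᵀ) (hAi : A * A⁻¹ = 1) (hHi : H⁻¹ * H = 1) (hKi : K * K⁻¹ = 1)
    (hHV : H * V = V * K) (hBV : B * V = 0) :
    (A⁻¹ * (Bᵀ * B)).trace = (B * H⁻¹ * Bᵀ).trace := by
  have h1 : H⁻¹ * V = V * K⁻¹ := by
    calc H⁻¹ * V = H⁻¹ * (V * (K * K⁻¹)) := by rw [hKi, Matrix.mul_one]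
      _ = H⁻¹ * (V * K) * K⁻¹ := by simp only [Matrix.mul_assoc]
      _ = H⁻¹ * (H * V) * K⁻¹ := by rw [hHV]
      _ = (H⁻¹ * H) * V * K⁻¹ := by simp only [Matrix.mul_assoc]
      _ = V * K⁻¹ := by rw [hHi, Matrix.one_mul]
  have h2 : H = A + V * Vᵀ := by
    rw [hA]
    abel
  have h3 : A⁻¹ = H⁻¹ + V * K⁻¹ * Vᵀ * A⁻¹ := by
    calc A⁻¹ = H⁻¹ * H * A⁻¹ := by rw [hHi, Matrix.one_mul]
      _ = H⁻¹ * (A + V * Vᵀ) * A⁻¹ := by rw [← h2]
      _ = H⁻¹ * (A * A⁻¹) + (H⁻¹ * V) * Vᵀ * A⁻¹ := by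
          simp only [Matrix.mul_add, Matrix.add_mul, Matrix.mul_assoc]
      _ = H⁻¹ + V * K⁻¹ * Vᵀ * A⁻¹ := by rw [hAi, Matrix.mul_one, h1]
  have h4 : B * A⁻¹ = B * H⁻¹ := by
    calc B * A⁻¹ = B * (H⁻¹ + V * K⁻¹ * Vᵀ * A⁻¹) := by rw [← h3]
      _ = B * H⁻¹ + (B * V) * (K⁻¹ * Vᵀ * A⁻¹) := by
          simp only [Matrix.mul_add, Matrix.mul_assoc]
      _ = B * H⁻¹ := by rw [hBV, Matrix.zero_mul, add_zero]
  rw [← Matrix.mul_assoc, Matrix.trace_mul_comm, ← Matrix.mul_assoc, h4]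

theorem inv_of {n : Type} [Fintype n] [DecidableEq n] {A : Matrix n n ℝ} (h : A * A⁻¹ = 1) :
    A⁻¹ * A = 1 := mul_eq_one_comm.1 h

theorem Hr_inv (L : ℕ) (h1 : K1 L * (K1 L)⁻¹ = 1) (h2 : K2 L * (K2 L)⁻¹ = 1)
    (h3 : K3 L * (K3 L)⁻¹ = 1) :
    (Hr L)⁻¹ = fromBlocks (K1 L)⁻¹ 0 0 (fromBlocks (K2 L)⁻¹ 0 0 (K3 L)⁻¹) := by
  apply Matrix.inv_eq_right_inv
  unfold Hr
  rw [fromBlocks_multiply, fromBlocks_multiply, h1, h2, h3]
  simp

theorem tr_blocks (L : ℕ) (h1 : K1 L * (K1 L)⁻¹ = 1) (h2 : K2 L * (K2 L)⁻¹ = 1)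
    (h3 : K3 L * (K3 L)⁻¹ = 1) :
    (Br L * (Hr L)⁻¹ * (Br L)ᵀ).trace =
      ((K1 L)⁻¹ * k4 1 (lDD L) 1 1).trace + ((K2 L)⁻¹ * k4 (lDD L) 1 1 1).trace := by
  rw [Hr_inv L h1 h2 h3]
  have e0 : Br L * fromBlocks (K1 L)⁻¹ 0 0 (fromBlocks (K2 L)⁻¹ 0 0 (K3 L)⁻¹) =
      fromCols (B1 L * (K1 L)⁻¹) (fromCols (B2 L * (K2 L)⁻¹) 0) := by
    unfold Br
    rw [fromCols_mul_fromBlocks, fromCols_mul_fromBlocks]
    simp
  have e1 : (Br L)ᵀ = fromRows (B1 L)ᵀ (fromRows (B2 L)ᵀ 0) := by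
    unfold Br
    rw [transpose_fromCols, transpose_fromCols]
    simp
  rw [e0, e1, fromCols_mul_fromRows, fromCols_mul_fromRows, Matrix.trace_add, Matrix.trace_add]
  have e2 : (B1 L)ᵀ * B1 L = k4 1 (lDD L) 1 1 := by
    unfold B1
    rw [Matrix.transpose_neg, Matrix.neg_mul, Matrix.mul_neg, neg_neg, k4_transpose, k4_mul]
    simp only [Matrix.transpose_one, Matrix.mul_one]
    rfl
  have e3 : (B2 L)ᵀ * B2 L = k4 (lDD L) 1 1 1 := by
    unfold B2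
    rw [k4_transpose, k4_mul]
    simp only [Matrix.transpose_one, Matrix.mul_one]
    rfl
  have e4 : (B1 L * (K1 L)⁻¹ * (B1 L)ᵀ).trace = ((K1 L)⁻¹ * k4 1 (lDD L) 1 1).trace := by
    rw [← e2, Matrix.mul_assoc, Matrix.trace_mul_comm, Matrix.mul_assoc]
  have e5 : (B2 L * (K2 L)⁻¹ * (B2 L)ᵀ).trace = ((K2 L)⁻¹ * k4 (lDD L) 1 1 1).trace := by
    rw [← e3, Matrix.mul_assoc, Matrix.trace_mul_comm, Matrix.mul_assoc]
  rw [e4, e5, Matrix.zero_mul, Matrix.trace_zero, add_zero]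

theorem ce_eq {n : ℕ} (A : Matrix (Fin n) (Fin n) ℝ) (t : ℝ) : (hk A t * A).trace = ce A t := by
  rw [Matrix.trace_mul_comm]
  rfl

/-- **Task AH-R1** -/
theorem tr1 (hPD : S_PD) (hAI : S_AI) : S_R1 := by
  intro L hL
  obtain ⟨pDD, pNN, pDN, pND, -, hDD, hNN, hks⟩ := hPD L hL
  obtain ⟨pA, -⟩ := hAI L hL
  have hdet : IsUnit (mA L).det := (Matrix.isUnit_iff_isUnit_det _).1 pA.isUnit
  have f1 := F2 pNN pDD pDD pDN
  have f2 := F2 pDD pNN pDD pDN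
  have f3 := F2 pDD pDD pNN pDN
  have f0 := F2 pDD pDD pDD pDN
  have hHi : (Hr L)⁻¹ * Hr L = 1 := by
    rw [Hr_inv L f1.1 f2.1 f3.1]
    unfold Hr
    rw [fromBlocks_multiply, fromBlocks_multiply, inv_of (A := K1 L) f1.1, inv_of (A := K2 L) f2.1,
      inv_of (A := K3 L) f3.1]
    simp
  rw [mR_eq, tr_red (mA L) (Hr L) (Vr L) (K0 L) (Br L) (mA_eq hPD L hL)
    (Matrix.mul_nonsing_inv _ hdet) hHi f0.1 (HV L) (BV L), tr_blocks L f1.1 f2.1 f3.1]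
  have g1 : ((K1 L)⁻¹ * k4 1 (lDD L) 1 1).trace =
      ∫ t in Set.Ioi (0 : ℝ), cc (lNN L) t * ce (lDD L) t * cc (lDD L) t * cc (lDN L) t := by
    refine (f1.2 _).trans ?_
    congr 1
    funext t
    rw [k4_mul, k4_trace, ce_eq, Matrix.mul_one, Matrix.mul_one, Matrix.mul_one]
    rfl
  have g2 : ((K2 L)⁻¹ * k4 (lDD L) 1 1 1).trace =
      ∫ t in Set.Ioi (0 : ℝ), cc (lNN L) t * ce (lDD L) t * cc (lDD L) t * cc (lDN L) t := by
    refine (f2.2 _).trans ?_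
    congr 1
    funext t
    rw [k4_mul, k4_trace, ce_eq, Matrix.mul_one, Matrix.mul_one, Matrix.mul_one]
    unfold cc
    ring
  rw [g1, g2]
  ring

end

end Pool.Agent.H263.AH
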